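import Pool.Agent.H670R5.Main

/-!
# Recognizing graphs with a single-obstacle representation is NP-hard

The definitions are in `Pool.Agent.H670R5.Defs` (polygons, sides of a polygon, representations),
`Pool.Agent.H670R5.Fin` (the decision problem `SingleObs`), `Pool.Agent.H679R2.Oct.Defs` (graphs
given by a list of vertices and a list of edges) and `Pool.Agent.NPC.Defs` (NP-hardness).

Sketch of the proof.

* A *cyclic arrangement problem*: given elements `0, ..., n-1` and triples of elements, is there a
  cyclic order of the elements in which every triple has two consecutive members?  It is NP-hard
  for the systems of triples `TOf`, by a reduction from 3-SAT through the octagon switches of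
  `Pool.Agent.H679R2.Oct` (`T_FORCE`, `T_EOK`, `T_EVAL`, and `T_ORB`, `T_POS`, `T_ARR` for the
  converse).
* The graph of an instance consists of two copies of the following graph: the elements form a
  clique, every element has an *opponent* (adjacent to all other elements), and every triple has a
  vertex adjacent to its members (`Ad`).
* *Soundness.*  Two disjoint copies without edges between them: the obstacle cannot be contained in
  the convex hulls of both (`T_LEMA`); so in one copy no triangle of the drawing meets the obstacle
  (`T_LEMTRI`, `T_GOOD`).  Then the neighbours of an outer vertex are consecutive in the angular
  order (`T_CONE`), the opponents force the elements to be in convex position (`T_EXT`, `T_CONV`),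
  and for every triple two members are neighbours on the convex hull (`T_FOUR`, `T_TRIPLE`).
* *Completeness.*  The elements are placed on a parabola, the opponents and the vertices of the
  triples on a slightly higher parabola; the obstacle lies above them and has two small teeth at
  each of these vertices, which leave a window of directions (`T_WKB`, ..., `T_WTT`, `T_TO1`, ...,
  `T_TO5`, `T_F1`, ..., `T_F4`).  The second copy is a mirror image.  Finally the points are moved
  into general position (`T_PERT`, `T_FULL`).
-/

namespace Pool.Agent.Results.MP_3b0ea9_lc.SingleObstacleNPHard

open Pool.Agent.NPC Pool.Agent.H679R2 Pool.Agent.H670R5

/-- SINGLE-OBSTACLE is NP-hard: every problem in NP can be reduced in polynomial time to the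
question whether a given graph has a single-obstacle representation. -/
theorem result : NPHardP SingleObs := (hard_single allSt).toNPHardP

end Pool.Agent.Results.MP_3b0ea9_lc.SingleObstacleNPHard
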